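import Pool.Agent.Q47.LAT.Int

set_option autoImplicit false

/-! Job LAT7: decomposition of the amalgamated graph. -/

namespace Pool.Agent.Q47.LAT

open Finset SimpleGraph Pool.Agent.Q105.LAB Pool.Agent.Q105.LAT

theorem ee_symm {V : Type} {A : V → V → Prop} {s : V → ℕ} (hA : ∀ u v, A u v → A v u) (u v : V) :
    ee A s u v = ee A s v u := by
  unfold ee
  by_cases h : A u v
  · rw [if_pos h, if_pos (hA u v h)]
    by_cases h2 : u = v
    · subst h2; rfl
    · rw [if_neg h2, if_neg (Ne.symm h2), mul_comm]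
  · rw [if_neg h, if_neg (fun h' => h (hA v u h'))]

theorem ee_even {V : Type} {A : V → V → Prop} {s : V → ℕ} (u : V) : Even (ee A s u u) := by
  unfold ee
  by_cases h : A u u
  · rw [if_pos h, if_pos rfl]; exact Nat.even_mul_pred_self _
  · rw [if_neg h]; exact Even.zero

theorem hv_adj {V : Type} {A : V → V → Prop} {s : V → ℕ} {D : ℕ} (hA : ∀ u v, A u v → A v u)
    {u v : V} (h : (hv A s D).Adj u v) : u ≠ v ∧ A u v ∧ D < s u * s v := by
  unfold hv at h
  rw [SimpleGraph.fromRel_adj] at h
  refine ⟨h.1, ?_⟩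
  rcases h.2 with h2 | h2
  · exact h2
  · exact ⟨hA _ _ h2.1, by rw [mul_comm]; exact h2.2⟩

theorem t_Mat (h1 : S_Or) (h2 : S_Int) : S_Mat := by
  classical
  intro V _ A s D hA hs hdeg hconn
  have hK1 : D + 1 ≤ 2 * ((D + 2) / 2) := by omega
  have hK0 : 1 ≤ (D + 2) / 2 := by omega
  have hK2 : 2 * ((D + 2) / 2) ≤ D + 2 := by omega
  generalize (D + 2) / 2 = K at hK1 hK0 hK2
  obtain ⟨a, ha1, -, ha3, ha4⟩ := h1 V (ee A s) (ee_symm hA) (fun u => ee_even u)
  have hRL : ∀ u, ∑ v, a u v + ∑ v, a v u = ∑ v, ee A s u v := by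
    intro u
    rw [← Finset.sum_add_distrib]
    exact Finset.sum_congr rfl fun v _ => ha1 u v
  have hsD : ∀ u, s u * D + 1 ≤ 2 * (K * s u) := by
    intro u
    have e1 := hs u
    calc s u * D + 1 ≤ s u * D + s u := by omega
      _ = s u * (D + 1) := by ring
      _ ≤ s u * (2 * K) := Nat.mul_le_mul_left _ hK1
      _ = 2 * (K * s u) := by ring
  have hR : ∀ u, ∑ v, a u v ≤ K * s u := by
    intro u
    have e1 := hRL u
    have e2 := hdeg u
    have e3 := ha3 u
    have e4 := hsD u
    omega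
  have hL : ∀ u, ∑ v, a v u ≤ K * s u := by
    intro u
    have e1 := hRL u
    have e2 := hdeg u
    have e3 := ha4 u
    have e4 := hsD u
    omega
  let F : V → V → ℕ := fun u v => if (hv A s D).Adj u v ∧ K ≤ a u v then 1 else 0
  have hF : ∀ u v, K * F u v ≤ a u v := by
    intro u v
    simp only [F]
    split_ifs with h
    · rw [mul_one]; exact h.2
    · rw [mul_zero]; exact Nat.zero_le _
  have hFp : ∀ u v, (hv A s D).Adj u v → 1 ≤ F u v + F v u := by
    intro u v h
    obtain ⟨e1, e2, e3⟩ := hv_adj hA h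
    have e4 : ee A s u v = s u * s v := by unfold ee; rw [if_pos e2, if_neg e1]
    have e5 := ha1 u v
    rw [e4] at e5
    rcases le_or_gt K (a u v) with h6 | h6
    · have e6 : F u v = 1 := if_pos ⟨h, h6⟩
      omega
    · have e6 : F v u = 1 := if_pos ⟨h.symm, by omega⟩
      omega
  have hρ : ∀ u, ∑ v, F u v ≤ s u := by
    intro u
    have e1 : K * ∑ v, F u v ≤ K * s u := by
      rw [Finset.mul_sum]
      exact le_trans (Finset.sum_le_sum fun v _ => hF u v) (hR u)
    exact Nat.le_of_mul_le_mul_left e1 hK0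
  have hρ' : ∀ u, ∑ v, F v u ≤ s u := by
    intro u
    have e1 : K * ∑ v, F v u ≤ K * s u := by
      rw [Finset.mul_sum]
      exact le_trans (Finset.sum_le_sum fun v _ => hF v u) (hL u)
    exact Nat.le_of_mul_le_mul_left e1 hK0
  -- the components
  let comp : V → (hv A s D).ConnectedComponent := fun v => (hv A s D).connectedComponentMk v
  have hee0 : ∀ u v, comp u ≠ comp v → ee A s u v = 0 := by
    intro u v h
    unfold ee
    rw [if_neg]
    intro hA'
    exact h (SimpleGraph.ConnectedComponent.eq.2 (hconn u v hA'))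
  have ha0 : ∀ u v, comp u ≠ comp v → a u v = 0 := by
    intro u v h
    have e1 := ha1 u v
    rw [hee0 u v h] at e1
    omega
  have hy : ∀ c : (hv A s D).ConnectedComponent, ∃ y : V → ℕ,
      (∀ u, y u ≤ if comp u = c then K * s u - ∑ v, a u v else 0) ∧ ∑ u, y u = K := by
    intro c
    apply sub_le
    rw [← Finset.sum_filter]
    obtain ⟨u0, hu0⟩ : ∃ u0, comp u0 = c := c.exists_rep
    let Cf : Finset V := univ.filter (fun u => comp u = c)
    change K ≤ ∑ u ∈ Cf, (K * s u - ∑ v, a u v)
    have hu0C : u0 ∈ Cf := mem_filter.2 ⟨mem_univ _, hu0⟩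
    have hN1 : 1 ≤ ∑ u ∈ Cf, s u := by
      refine le_trans (hs u0) ?_
      exact Finset.single_le_sum (f := s) (fun _ _ => Nat.zero_le _) hu0C
    have e1 : ∑ u ∈ Cf, (K * s u - ∑ v, a u v) + ∑ u ∈ Cf, ∑ v, a u v = K * ∑ u ∈ Cf, s u := by
      rw [← Finset.sum_add_distrib, Finset.mul_sum]
      exact Finset.sum_congr rfl fun u _ => Nat.sub_add_cancel (hR u)
    have hrow : ∀ u ∈ Cf, ∑ v, ee A s u v + s u ≤ s u * ∑ v ∈ Cf, s v := by
      intro u hu
      have hsub : ∑ v, ee A s u v = ∑ v ∈ Cf, ee A s u v := by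
        symm
        refine Finset.sum_subset (Finset.subset_univ _) fun v _ hv' => ?_
        refine hee0 u v fun h => hv' (mem_filter.2 ⟨mem_univ _, ?_⟩)
        rw [← h]; exact (mem_filter.1 hu).2
      rw [hsub, ← Finset.add_sum_erase Cf _ hu, ← Finset.add_sum_erase Cf s hu, mul_add,
        Finset.mul_sum]
      have e2 : ee A s u u + s u ≤ s u * s u := by
        unfold ee
        obtain ⟨r, hr⟩ : ∃ r, s u = r + 1 := ⟨s u - 1, by have := hs u; omega⟩
        rw [hr]
        split_ifs with g1 g2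
        · simp only [Nat.add_sub_cancel]
          exact le_of_eq (by ring)
        · exact absurd rfl g2
        · nlinarith
      have e3 : ∑ v ∈ Cf.erase u, ee A s u v ≤ ∑ v ∈ Cf.erase u, s u * s v := by
        refine Finset.sum_le_sum fun v hv' => ?_
        unfold ee
        have hne : u ≠ v := (Finset.ne_of_mem_erase hv').symm
        rw [if_neg hne]
        split_ifs
        · exact le_rfl
        · exact Nat.zero_le _
      omega
    have hRLC : ∑ u ∈ Cf, ∑ v, a u v = ∑ u ∈ Cf, ∑ v, a v u := by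
      have e2 : ∀ u ∈ Cf, ∑ v, a u v = ∑ v ∈ Cf, a u v := by
        intro u hu
        symm
        refine Finset.sum_subset (Finset.subset_univ _) fun v _ hv' => ?_
        refine ha0 u v fun h => hv' (mem_filter.2 ⟨mem_univ _, ?_⟩)
        rw [← h]; exact (mem_filter.1 hu).2
      have e3 : ∀ u ∈ Cf, ∑ v, a v u = ∑ v ∈ Cf, a v u := by
        intro u hu
        symm
        refine Finset.sum_subset (Finset.subset_univ _) fun v _ hv' => ?_
        refine ha0 v u fun h => hv' (mem_filter.2 ⟨mem_univ _, ?_⟩)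
        rw [h]; exact (mem_filter.1 hu).2
      rw [Finset.sum_congr rfl e2, Finset.sum_congr rfl e3, Finset.sum_comm]
    have h2R : 2 * ∑ u ∈ Cf, ∑ v, a u v = ∑ u ∈ Cf, ∑ v, ee A s u v := by
      rw [two_mul]
      nth_rw 2 [hRLC]
      rw [← Finset.sum_add_distrib]
      exact Finset.sum_congr rfl fun u _ => hRL u
    have hb1 : ∑ u ∈ Cf, ∑ v, ee A s u v + ∑ u ∈ Cf, s u ≤
        (∑ u ∈ Cf, s u) * ∑ v ∈ Cf, s v := by
      rw [← Finset.sum_add_distrib, Finset.sum_mul]
      exact Finset.sum_le_sum hrow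
    have hb2 : ∑ u ∈ Cf, ∑ v, ee A s u v ≤ (∑ u ∈ Cf, s u) * D := by
      rw [Finset.sum_mul]
      exact Finset.sum_le_sum fun u _ => hdeg u
    have hb3 : ∑ u ∈ Cf, ∑ v, ee A s u v + 2 * K ≤ 2 * (K * ∑ u ∈ Cf, s u) := by
      generalize ∑ u ∈ Cf, ∑ v, ee A s u v = T at *
      generalize ∑ u ∈ Cf, s u = N at *
      obtain ⟨r, rfl⟩ : ∃ r, N = r + 1 := ⟨N - 1, by omega⟩
      have e5 : T ≤ (D + 1) * r := by
        rcases le_or_gt (r + 1) (D + 1) with h | h
        · have e6 : (r + 1) * (r + 1) ≤ (D + 1) * (r + 1) := Nat.mul_le_mul_right _ h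
          have e7 : (D + 1) * r + (D + 1) = (D + 1) * (r + 1) := by ring
          have e8 : (r + 1) * (r + 1) = (r + 1) * r + (r + 1) := by ring
          have e9 : (r + 1) * r ≤ (D + 1) * r := Nat.mul_le_mul_right _ h
          omega
        · have e7 : (D + 1) * r = (r + 1) * D + (r - D) := by
            obtain ⟨d, rfl⟩ : ∃ d, r = D + d := ⟨r - D, by omega⟩
            have : D + d - D = d := by omega
            rw [this]; ring
          omega
      have e6 : (D + 1) * r ≤ 2 * K * r := Nat.mul_le_mul_right _ hK1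
      calc T + 2 * K ≤ 2 * K * r + 2 * K := by omega
        _ = 2 * (K * (r + 1)) := by ring
    omega
  choose y hy1 hy2 using hy
  have hyz : ∀ c u, comp u ≠ c → y c u = 0 := by
    intro c u h
    have := hy1 c u
    rw [if_neg h] at this
    omega
  let M : V → (V ⊕ (hv A s D).ConnectedComponent) → ℕ := fun u => Sum.elim
    (fun v => a u v - K * F u v) (fun c => y c u)
  have hMs : ∀ (w : Finset V) (f : V → V × V), ∑ v ∈ w, (a (f v).1 (f v).2 - K * F (f v).1 (f v).2) +
      K * ∑ v ∈ w, F (f v).1 (f v).2 = ∑ v ∈ w, a (f v).1 (f v).2 := by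
    intro w f
    rw [Finset.mul_sum, ← Finset.sum_add_distrib]
    exact Finset.sum_congr rfl fun v _ => Nat.sub_add_cancel (hF _ _)
  have hrow : ∀ u, ∑ c, M u c ≤ K * (s u - ∑ v, F u v) := by
    intro u
    rw [Fintype.sum_sum_type]
    simp only [M, Sum.elim_inl, Sum.elim_inr]
    have e1 : ∑ c, y c u = y (comp u) u := by
      rw [Finset.sum_eq_single (comp u)]
      · intro c _ hc; exact hyz c u (Ne.symm hc)
      · intro h; exact absurd (mem_univ _) h
    have e2 := hy1 (comp u) u
    rw [if_pos rfl] at e2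
    have e3 := hMs univ (fun v => (u, v))
    simp only at e3
    have e4 := hρ u
    have e5 := hR u
    have e6 : K * (s u - ∑ v, F u v) + K * ∑ v, F u v = K * s u := by
      rw [← mul_add, Nat.sub_add_cancel e4]
    rw [e1]
    omega
  have hcol : ∀ c, ∑ u, M u c ≤ K * Sum.elim (fun v => s v - ∑ u, F u v)
      (fun _ : (hv A s D).ConnectedComponent => 1) c := by
    intro c
    rcases c with v | c
    · simp only [M, Sum.elim_inl]
      have e3 := hMs univ (fun u => (u, v))
      simp only at e3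
      have e4 := hρ' v
      have e5 := hL v
      have e6 : K * (s v - ∑ u, F u v) + K * ∑ u, F u v = K * s v := by
        rw [← mul_add, Nat.sub_add_cancel e4]
      omega
    · simp only [M, Sum.elim_inr]
      rw [hy2 c, mul_one]
  obtain ⟨B, hB1, hB2, hB3⟩ := h2 V (V ⊕ (hv A s D).ConnectedComponent) K M
    (fun u => s u - ∑ v, F u v)
    (Sum.elim (fun v => s v - ∑ u, F u v) (fun _ : (hv A s D).ConnectedComponent => 1)) hrow hcol
  have hone : ∀ j c, ∑ u, B j u (Sum.inr c) = 1 := by
    intro j c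
    have e1 : ∑ j, ∑ u, B j u (Sum.inr c) = ∑ _j : Fin K, 1 := by
      rw [Finset.sum_comm, Finset.sum_congr rfl fun u _ => hB1 u (Sum.inr c)]
      simp only [M, Sum.elim_inr]
      rw [hy2 c]; simp
    have e2 : ∀ j ∈ (univ : Finset (Fin K)), ∑ u, B j u (Sum.inr c) ≤ 1 := by
      intro j _
      have := hB3 j (Sum.inr c)
      simpa only [Sum.elim_inr] using this
    exact (Finset.sum_eq_sum_iff_of_le e2).1 e1 j (mem_univ j)
  have hrowN : ∀ j u, ∑ v, (B j u (Sum.inl v) + F u v + (B j v (Sum.inl u) + F v u)) +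
      ∑ c, B j u (Sum.inr c) ≤ 2 * s u := by
    intro j u
    have e1 := hB2 j u
    have e2 := hB3 j (Sum.inl u)
    rw [Fintype.sum_sum_type] at e1
    simp only [Sum.elim_inl] at e2
    have e3 := hρ u
    have e4 := hρ' u
    simp only [Finset.sum_add_distrib]
    omega
  refine ⟨fun j u v => B j u (Sum.inl v) + F u v + (B j v (Sum.inl u) + F v u),
    fun j u v => by ring, fun j u => ⟨_, rfl⟩, fun u v => ?_, fun j u => ?_, fun j v => ?_⟩
  · simp only [Finset.sum_add_distrib]
    rw [hB1 u (Sum.inl v), hB1 v (Sum.inl u), ← ha1 u v]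
    simp only [M, Sum.elim_inl, Finset.sum_const, Finset.card_univ, Fintype.card_fin, smul_eq_mul]
    have e1 := hF u v
    have e2 := hF v u
    omega
  · exact le_trans (Nat.le_add_right _ _) (hrowN j u)
  · obtain ⟨u, -, hu⟩ : ∃ u ∈ (univ : Finset V), 0 < B j u (Sum.inr (comp v)) := by
      by_contra hcon
      push Not at hcon
      have e1 := hone j (comp v)
      rw [Finset.sum_eq_zero fun u hu => Nat.le_zero.1 (hcon u hu)] at e1
      omega
    refine ⟨u, ?_, ?_⟩
    · have e1 : comp u = comp v := by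
        by_contra h
        have e2 := hB1 u (Sum.inr (comp v))
        simp only [M, Sum.elim_inr] at e2
        rw [hyz (comp v) u h] at e2
        have e3 := (Finset.sum_eq_zero_iff.1 e2) j (mem_univ j)
        omega
      have e2 : (hv A s D).Reachable v u := (SimpleGraph.ConnectedComponent.eq.1 e1).symm
      refine e2.mono ?_
      intro x z hxz
      refine ⟨hxz.ne, Or.inl ?_⟩
      have := hFp x z hxz
      simp only
      omega
    · have e1 := hrowN j u
      have e2 : 0 < ∑ c, B j u (Sum.inr c) :=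
        lt_of_lt_of_le hu (Finset.single_le_sum (f := fun c => B j u (Sum.inr c))
          (fun _ _ => Nat.zero_le _) (mem_univ (comp v)))
      have e3 := hs u
      refine lt_of_lt_of_le ?_ e1
      exact Nat.lt_add_of_pos_right e2

end Pool.Agent.Q47.LAT
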